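import Pool.Agent.Lib.MP_7682a8_an.KB.Iface

/-! Project KB, row ARE: the area theorem, abstract form (helper91). -/

set_option autoImplicit false

open Metric Set MeasureTheory Filter
open scoped Topology ENNReal

namespace Pool.Agent.Lib.MP_7682a8_an.KB.H91

open Pool.Agent.Lib.MP_7682a8_an.KB

theorem wd_apply (p s v : ℂ) : wd p s v = p * v + s * starRingEnd ℂ v := by
  simp [wd]

theorem det_wd (p s : ℂ) : (wd p s).det = ‖p‖ ^ 2 - ‖s‖ ^ 2 := by
  have h : (wd p s).det = LinearMap.det ((wd p s : ℂ →L[ℝ] ℂ) : ℂ →ₗ[ℝ] ℂ) := rfl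
  rw [h, ← LinearMap.det_toMatrix Complex.basisOneI, Matrix.det_fin_two]
  simp only [LinearMap.toMatrix_apply, Complex.coe_basisOneI, Complex.coe_basisOneI_repr,
    ContinuousLinearMap.coe_coe, wd_apply]
  rw [← Complex.normSq_eq_norm_sq, ← Complex.normSq_eq_norm_sq, Complex.normSq_apply,
    Complex.normSq_apply]
  simp
  ring

/-- The derivative of `1 / q`. -/
theorem hasFDerivAt_inv {q : ℂ → ℂ} {p s z : ℂ} (hq : q z ≠ 0) (h : HasFDerivAt q (wd p s) z) :
    HasFDerivAt (fun z => (q z)⁻¹) (wd (-(q z ^ 2)⁻¹ * p) (-(q z ^ 2)⁻¹ * s)) z := by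
  have h1 := ((hasDerivAt_inv hq).hasFDerivAt.restrictScalars ℝ).comp z h
  refine h1.congr_fderiv ?_
  ext v
  simp only [ContinuousLinearMap.comp_apply, ContinuousLinearMap.coe_restrictScalars',
    wd_apply]
  simp
  ring

/-- The measure of the annulus. -/
theorem lintegral_annulus {m : ℝ} (hm : 0 < m) (hm1 : m ≤ 1) :
    ∫⁻ w in {w : ℂ | m ≤ ‖w‖ ∧ m * ‖w‖ ≤ 1}, ENNReal.ofReal (1 / ‖w‖ ^ 2) ≤
      ENNReal.ofReal (4 * Real.pi * Real.log (1 / m)) := by
  set K : Set ℂ := {w : ℂ | m ≤ ‖w‖ ∧ m * ‖w‖ ≤ 1} with hK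
  have hKm : MeasurableSet K :=
    ((isClosed_le continuous_const continuous_norm).inter
      (isClosed_le (continuous_const.mul continuous_norm) continuous_const)).measurableSet
  have hmi : m ≤ m⁻¹ := hm1.trans ((one_le_inv₀ hm).mpr hm1)
  set φ : ℝ → ℝ≥0∞ := (Icc m m⁻¹).indicator fun r => ENNReal.ofReal r⁻¹ with hφ
  have hφm : Measurable φ := by
    apply Measurable.indicator _ measurableSet_Icc
    exact ENNReal.measurable_ofReal.comp measurable_inv
  rw [← lintegral_indicator hKm, ← Complex.lintegral_comp_polarCoord_symm]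
  have hT : polarCoord.target = Ioi (0 : ℝ) ×ˢ Ioo (-Real.pi) Real.pi := rfl
  have h1 : ∫⁻ p in polarCoord.target, ENNReal.ofReal p.1 •
      K.indicator (fun w => ENNReal.ofReal (1 / ‖w‖ ^ 2)) (Complex.polarCoord.symm p) =
      ∫⁻ p in Ioi (0 : ℝ) ×ˢ Ioo (-Real.pi) Real.pi, φ p.1 := by
    rw [hT]
    refine setLIntegral_congr_fun (measurableSet_Ioi.prod measurableSet_Ioo) fun p hp => ?_
    have hp0 : 0 < p.1 := hp.1
    have hn : ‖Complex.polarCoord.symm p‖ = p.1 := by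
      rw [Complex.norm_polarCoord_symm, abs_of_pos hp0]
    by_cases hpm : m ≤ p.1 ∧ m * p.1 ≤ 1
    · have hin : Complex.polarCoord.symm p ∈ K := by
        rw [hK]
        simp only [mem_ofPred_eq, hn]
        exact hpm
      have hin2 : p.1 ∈ Icc m m⁻¹ := by
        refine ⟨hpm.1, ?_⟩
        rw [← one_div, le_div_iff₀ hm, mul_comm]
        exact hpm.2
      rw [indicator_of_mem hin, hφ, indicator_of_mem hin2, hn, smul_eq_mul,
        ← ENNReal.ofReal_mul hp0.le]
      congr 1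
      field_simp
    · have hin : Complex.polarCoord.symm p ∉ K := by
        rw [hK]
        simp only [mem_ofPred_eq, hn]
        exact hpm
      have hin2 : p.1 ∉ Icc m m⁻¹ := by
        intro hc
        apply hpm
        refine ⟨hc.1, ?_⟩
        have := hc.2
        rw [← one_div, le_div_iff₀ hm, mul_comm] at this
        exact this
      rw [indicator_of_notMem hin, hφ, indicator_of_notMem hin2, smul_zero]
  have h2 : ∫⁻ p in Ioi (0 : ℝ) ×ˢ Ioo (-Real.pi) Real.pi, φ p.1 =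
      ∫⁻ r in Ioi (0 : ℝ), φ r * ENNReal.ofReal (2 * Real.pi) := by
    rw [Measure.volume_eq_prod, ← Measure.prod_restrict, lintegral_prod _ (by fun_prop)]
    refine lintegral_congr fun r => ?_
    simp only []
    rw [lintegral_const, Measure.restrict_apply_univ, Real.volume_Ioo]
    congr 2
    ring
  have h3 : ∫⁻ r in Ioi (0 : ℝ), φ r ≤ ENNReal.ofReal (2 * Real.log (1 / m)) := by
    calc ∫⁻ r in Ioi (0 : ℝ), φ r ≤ ∫⁻ r, φ r := setLIntegral_le_lintegral _ _
      _ = ∫⁻ r in Icc m m⁻¹, ENNReal.ofReal r⁻¹ := by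
          rw [hφ, lintegral_indicator measurableSet_Icc]
      _ = ENNReal.ofReal (∫ r in Icc m m⁻¹, r⁻¹) := by
          symm
          apply ofReal_integral_eq_lintegral_ofReal
          · refine ContinuousOn.integrableOn_Icc ?_
            exact continuousOn_inv₀.mono fun r hr => ne_of_gt (lt_of_lt_of_le hm hr.1)
          · exact (ae_restrict_iff' measurableSet_Icc).mpr (Eventually.of_forall fun r hr =>
              inv_nonneg.mpr (hm.le.trans hr.1))
      _ = ENNReal.ofReal (2 * Real.log (1 / m)) := by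
          congr 1
          rw [integral_Icc_eq_integral_Ioc, ← intervalIntegral.integral_of_le hmi,
            integral_inv_of_pos hm (inv_pos.mpr hm)]
          rw [show m⁻¹ / m = (1 / m) ^ 2 by field_simp, Real.log_pow]
          norm_num
  rw [h1, h2, lintegral_mul_const _ hφm]
  calc (∫⁻ r in Ioi (0 : ℝ), φ r) * ENNReal.ofReal (2 * Real.pi)
      ≤ ENNReal.ofReal (2 * Real.log (1 / m)) * ENNReal.ofReal (2 * Real.pi) := by gcongr
    _ = ENNReal.ofReal (4 * Real.pi * Real.log (1 / m)) := by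
        rw [← ENNReal.ofReal_mul]
        · congr 1
          ring
        · have : 0 ≤ Real.log (1 / m) := Real.log_nonneg (by rw [le_div_iff₀ hm]; linarith)
          positivity

theorem are : AreStmt := by
  intro q P S ε ρ m hε hερ hm hd hSP hinj hprod hann
  set A : Set ℂ := {z | ε < ‖z‖ ∧ ‖z‖ < ρ} with hA
  have hAo : IsOpen A := (isOpen_lt continuous_const continuous_norm).inter
    (isOpen_lt continuous_norm continuous_const)
  have hAm : MeasurableSet A := hAo.measurableSet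
  have hA0 : A.Nonempty := by
    refine ⟨(((ε + ρ) / 2 : ℝ) : ℂ), ?_, ?_⟩ <;>
    · rw [Complex.norm_real, Real.norm_eq_abs, abs_of_pos (by linarith)]
      linarith
  have hz0 : ∀ z ∈ A, z ≠ 0 := by
    rintro z hz rfl
    have := hz.1
    rw [norm_zero] at this
    linarith
  have hq0 : ∀ z ∈ A, q z ≠ 0 := by
    intro z hz h0
    have := (hann z hz.1 hz.2).1
    rw [h0, norm_zero] at this
    linarith
  have hm1 : m ≤ 1 := by
    obtain ⟨z, hz⟩ := hA0
    have h1 := hann z hz.1 hz.2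
    by_contra hc
    push Not at hc
    nlinarith [h1.1, h1.2]
  have hlog : 0 ≤ Real.log (1 / m) := Real.log_nonneg (by rw [le_div_iff₀ hm]; linarith)
  have hc0 : 0 ≤ 2 * Real.pi * Real.log (1 / m) := by positivity
  set F : ℂ → ℝ := fun z => (‖P z‖ ^ 2 - ‖S z‖ ^ 2) / ‖z‖ ^ 2 with hF
  have hF0 : ∀ z ∈ A, 0 ≤ F z := by
    intro z hz
    have h1 := hSP z hz.1 hz.2
    have h2 : ‖S z‖ ^ 2 ≤ ‖P z‖ ^ 2 := by gcongr
    have h3 : 0 ≤ ‖P z‖ ^ 2 - ‖S z‖ ^ 2 := by linarith
    positivity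
  set g : ℂ → ℝ≥0∞ := fun w => ENNReal.ofReal (1 / ‖w‖ ^ 2) with hg
  -- the two area formulas
  have hd1 : ∀ z ∈ A, HasFDerivWithinAt q
      (wd (q z * P z / z) (q z * S z / starRingEnd ℂ z)) A z :=
    fun z hz => (hd z hz.1 hz.2).hasFDerivWithinAt
  have hd2 : ∀ z ∈ A, HasFDerivWithinAt (fun z => (q z)⁻¹)
      (wd (-(q z ^ 2)⁻¹ * (q z * P z / z)) (-(q z ^ 2)⁻¹ * (q z * S z / starRingEnd ℂ z))) A z :=
    fun z hz => (hasFDerivAt_inv (hq0 z hz) (hd z hz.1 hz.2)).hasFDerivWithinAt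
  have hinj2 : InjOn (fun z => (q z)⁻¹) A := by
    intro z hz z' hz' h
    exact hinj hz hz' (inv_injective h)
  have e1 := lintegral_image_eq_lintegral_abs_det_fderiv_mul volume hAm hd1 hinj g
  have e2 := lintegral_image_eq_lintegral_abs_det_fderiv_mul volume hAm hd2 hinj2 g
  have hzc : ∀ z : ℂ, ‖starRingEnd ℂ z‖ = ‖z‖ := fun z => RCLike.norm_conj z
  have f1 : ∫⁻ w in q '' A, g w = ∫⁻ z in A, ENNReal.ofReal (F z) := by
    rw [e1]
    refine setLIntegral_congr_fun hAm fun z hz => ?_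
    have hqz : 0 < ‖q z‖ := norm_pos_iff.mpr (hq0 z hz)
    have hzz : 0 < ‖z‖ := norm_pos_iff.mpr (hz0 z hz)
    simp only [hg]
    rw [det_wd, ← ENNReal.ofReal_mul (abs_nonneg _)]
    congr 1
    have h1 : ‖q z * P z / z‖ ^ 2 - ‖q z * S z / starRingEnd ℂ z‖ ^ 2 = F z * ‖q z‖ ^ 2 := by
      rw [norm_div, norm_div, norm_mul, norm_mul, hzc, hF]
      field_simp
    rw [h1, abs_of_nonneg (mul_nonneg (hF0 z hz) (by positivity))]
    field_simp
  have f2 : ∫⁻ w in (fun z => (q z)⁻¹) '' A, g w = ∫⁻ z in A, ENNReal.ofReal (F z) := by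
    rw [e2]
    refine setLIntegral_congr_fun hAm fun z hz => ?_
    have hqz : 0 < ‖q z‖ := norm_pos_iff.mpr (hq0 z hz)
    have hzz : 0 < ‖z‖ := norm_pos_iff.mpr (hz0 z hz)
    simp only [hg]
    rw [det_wd, ← ENNReal.ofReal_mul (abs_nonneg _)]
    congr 1
    have h1 : ‖-(q z ^ 2)⁻¹ * (q z * P z / z)‖ ^ 2 - ‖-(q z ^ 2)⁻¹ * (q z * S z / starRingEnd ℂ z)‖ ^ 2
        = F z * (‖q z‖ ^ 2)⁻¹ := by
      rw [norm_mul, norm_mul, norm_div, norm_div, norm_mul, norm_mul, hzc, norm_neg, norm_inv,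
        norm_pow, hF]
      field_simp
    rw [h1, abs_of_nonneg (mul_nonneg (hF0 z hz) (by positivity)), norm_inv]
    field_simp
  -- the union
  have hmeas : MeasurableSet ((fun z => (q z)⁻¹) '' A) :=
    measurable_image_of_fderivWithin hAm hd2 hinj2
  have hdisj : Disjoint (q '' A) ((fun z => (q z)⁻¹) '' A) := by
    rw [Set.disjoint_left]
    rintro w ⟨z, hz, rfl⟩ ⟨z', hz', h⟩
    apply hprod z' z hz'.1 hz'.2 hz.1 hz.2
    have h' : (q z')⁻¹ = q z := h
    rw [← h', mul_inv_cancel₀ (hq0 z' hz')]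
  have hsub : q '' A ∪ (fun z => (q z)⁻¹) '' A ⊆ {w : ℂ | m ≤ ‖w‖ ∧ m * ‖w‖ ≤ 1} := by
    rintro w (⟨z, hz, rfl⟩ | ⟨z, hz, rfl⟩)
    · exact hann z hz.1 hz.2
    · have h1 := hann z hz.1 hz.2
      have hqz : 0 < ‖q z‖ := norm_pos_iff.mpr (hq0 z hz)
      simp only [mem_ofPred_eq, norm_inv]
      constructor
      · rw [← one_div, le_div_iff₀ hqz]
        exact h1.2
      · rw [← div_eq_mul_inv, div_le_one hqz]
        exact h1.1
  have h4 : (∫⁻ z in A, ENNReal.ofReal (F z)) + ∫⁻ z in A, ENNReal.ofReal (F z) ≤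
      ENNReal.ofReal (4 * Real.pi * Real.log (1 / m)) := by
    calc (∫⁻ z in A, ENNReal.ofReal (F z)) + ∫⁻ z in A, ENNReal.ofReal (F z)
        = (∫⁻ w in q '' A, g w) + ∫⁻ w in (fun z => (q z)⁻¹) '' A, g w := by rw [f1, f2]
      _ = ∫⁻ w in q '' A ∪ (fun z => (q z)⁻¹) '' A, g w :=
          (lintegral_union hmeas hdisj).symm
      _ ≤ ∫⁻ w in {w : ℂ | m ≤ ‖w‖ ∧ m * ‖w‖ ≤ 1}, g w := lintegral_mono_set hsub
      _ ≤ _ := lintegral_annulus hm hm1
  have h5 : ∫⁻ z in A, ENNReal.ofReal (F z) ≤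
      ENNReal.ofReal (2 * Real.pi * Real.log (1 / m)) := by
    by_contra hc
    push Not at hc
    have h6 := ENNReal.add_lt_add hc hc
    rw [← ENNReal.ofReal_add hc0 hc0] at h6
    have h7 : 2 * Real.pi * Real.log (1 / m) + 2 * Real.pi * Real.log (1 / m) =
        4 * Real.pi * Real.log (1 / m) := by ring
    rw [h7] at h6
    exact absurd h4 (not_le.mpr h6)
  by_cases hint : IntegrableOn F A
  · have h6 : ENNReal.ofReal (∫ z in A, F z) = ∫⁻ z in A, ENNReal.ofReal (F z) :=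
      ofReal_integral_eq_lintegral_ofReal hint
        ((ae_restrict_iff' hAm).mpr (Eventually.of_forall hF0))
    rw [← h6] at h5
    exact (ENNReal.ofReal_le_ofReal_iff hc0).mp h5
  · have h6 : ∫ z in A, F z = 0 := integral_undef hint
    rw [h6]
    exact hc0

end Pool.Agent.Lib.MP_7682a8_an.KB.H91
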